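import Pool.Agent.R944.Tysz.Sys

/-!
# Small rational solutions of unit-and-addition systems

For all complex numbers `x_1, …, x_n` there are rational numbers `y_1, …, y_n` in
`[-2^(n-1), 2^(n-1)]` such that `x_i = 1` implies `y_i = 1`, and `x_i + x_j = x_k` implies
`y_i + y_j = y_k`.

Proof. Choose a maximal independent subsystem and set the free unknowns to zero. If this subsystem
contains no equation `x_i = 1`, then `y = 0` solves it. If not, Cramer's rule gives a solution
`y_k = p_k / D`, where `p_k` and `D` are integers of absolute value at most `2^(n-1)` (inequality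
of Johnson and Newman `|det M| ≤ ∏ M_i`, where `M_i` bounds the sum of the positive entries of row
`i` and the sum of the absolute values of its negative entries); and `|D| ≥ 1`.
-/

set_option autoImplicit false

open Pool.Agent.R944.Tysz

namespace Pool.Agent.Results.MP_e9426e_al.SmallRationalSolutions

/-- **Q1, affirmative.** -/
theorem result (n : ℕ) (_hn : 1 ≤ n) (x : Fin n → ℂ) :
    ∃ y : Fin n → ℚ, (∀ i, -(2 : ℚ) ^ (n - 1) ≤ y i ∧ y i ≤ 2 ^ (n - 1)) ∧
      (∀ i, x i = 1 → y i = 1) ∧ (∀ i j k, x i + x j = x k → y i + y j = y k) := by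
  classical
  let ι : Type := {i : Fin n // x i = 1} ⊕ {t : Fin n × Fin n × Fin n // x t.1 + x t.2.1 = x t.2.2}
  let a : ι → Fin n → ℤ := fun e =>
    match e with
    | .inl i => rowU i.1
    | .inr t => rowA t.1.1 t.1.2.1 t.1.2.2
  let b : ι → ℤ := fun e =>
    match e with
    | .inl _ => 1
    | .inr _ => 0
  have hx : ∀ e : ι, ∑ k, (a e k : ℂ) * x k = b e := by
    rintro (i | t)
    · show ∑ k, ((rowU i.1 k : ℤ) : ℂ) * x k = ((1 : ℤ) : ℂ)
      rw [eval_rowU, i.2]
      simp
    · show ∑ k, ((rowA t.1.1 t.1.2.1 t.1.2.2 k : ℤ) : ℂ) * x k = ((0 : ℤ) : ℂ)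
      rw [eval_rowA, t.2]
      simp
  have hgood : ∀ e : ι, Good (a e) (b e) := by
    rintro (i | t)
    · exact good_rowU _
    · exact good_rowA _ _ _
  obtain ⟨D, p, hD0, hD, hp, hsol⟩ := rational_main a b x hx hgood
  have hDQ : (D : ℚ) ≠ 0 := by exact_mod_cast hD0
  have hbd : ∀ i, |(p i : ℚ) / (D : ℚ)| ≤ 2 ^ (n - 1) := by
    intro i
    have h1 : (1 : ℚ) ≤ |(D : ℚ)| := by exact_mod_cast Int.one_le_abs hD0
    have h2 : |(p i : ℚ)| ≤ 2 ^ (n - 1) := by exact_mod_cast hp i
    rw [abs_div]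
    calc |(p i : ℚ)| / |(D : ℚ)| ≤ |(p i : ℚ)| / 1 :=
          div_le_div_of_nonneg_left (abs_nonneg _) one_pos h1
      _ = |(p i : ℚ)| := div_one _
      _ ≤ 2 ^ (n - 1) := h2
  refine ⟨fun i => (p i : ℚ) / (D : ℚ), fun i => abs_le.1 (hbd i), ?_, ?_⟩
  · intro i hi
    have h1 : ∑ k, rowU i k * p k = D * 1 := hsol (Sum.inl ⟨i, hi⟩)
    have h2 := eval_rowU (R := ℤ) i p
    simp only [Int.cast_id] at h2
    rw [h2, mul_one] at h1
    show (p i : ℚ) / (D : ℚ) = 1
    rw [h1, div_self hDQ]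
  · intro i j k hijk
    have h1 : ∑ l, rowA i j k l * p l = D * 0 := hsol (Sum.inr ⟨(i, j, k), hijk⟩)
    have h2 := eval_rowA (R := ℤ) i j k p
    simp only [Int.cast_id] at h2
    rw [h2, mul_zero] at h1
    have h3 : (p i : ℚ) + p j = p k := by
      have : p i + p j = p k := by linarith
      exact_mod_cast this
    show (p i : ℚ) / (D : ℚ) + (p j : ℚ) / (D : ℚ) = (p k : ℚ) / (D : ℚ)
    rw [← add_div, h3]

end Pool.Agent.Results.MP_e9426e_al.SmallRationalSolutions
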